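import Pool.Agent.Y808.DR.Stm

/-! The trace retraction respects radicals of extended primes (job DR-TR, project of helper808;
proof by helper43). -/

set_option autoImplicit false

namespace Pool.Agent.Y43.DR.TR

open Pool.Agent.Y808.DR
open scoped nonZeroDivisors

universe u

theorem t_TR : S_TR.{u} := by
  intro A B _ _ _ _ _ _ _ _ hinj
  have : FaithfulSMul A B := (faithfulSMul_iff_algebraMap_injective A B).2 hinj
  have : CharZero A := algebraRat.charZero A
  let K := FractionRing A
  let L := FractionRing B
  let : Algebra K L := FractionRing.liftAlgebra A L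
  have : IsScalarTower A K L := FractionRing.isScalarTower_liftAlgebra A L
  have : Algebra.IsIntegral A B := Algebra.IsIntegral.of_finite A B
  have : Algebra.IsAlgebraic A B := inferInstance
  have : FiniteDimensional K L := Module.Finite.of_isLocalization A B A⁰
  have : CharZero K := charZero_of_injective_algebraMap (IsFractionRing.injective A K)
  have hint : ∀ b : B, IsIntegral A (Algebra.trace K L (algebraMap B L b)) := fun b =>
    Algebra.isIntegral_trace (IsIntegral.algebraMap (Algebra.IsIntegral.isIntegral b))
  have hex : ∀ b : B, ∃ a : A, algebraMap A K a = Algebra.trace K L (algebraMap B L b) := fun b =>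
    IsIntegrallyClosed.isIntegral_iff.1 (hint b)
  choose T hT using hex
  have hKinj : Function.Injective (algebraMap A K) := IsFractionRing.injective A K
  let T' : B →ₗ[A] A :=
    { toFun := T
      map_add' := fun x y => hKinj (by rw [map_add, hT, hT, hT, map_add, map_add])
      map_smul' := fun a x => hKinj (by
        rw [RingHom.id_apply, smul_eq_mul, map_mul, hT, hT, Algebra.smul_def, map_mul,
          ← IsScalarTower.algebraMap_apply A B L, IsScalarTower.algebraMap_apply A K L,
          ← Algebra.smul_def, map_smul, smul_eq_mul]) }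
  refine ⟨T', ?_, ?_⟩
  · have h1 : T 1 = (Module.finrank K L : A) := by
      apply hKinj
      rw [hT, map_one, map_natCast]
      have := Algebra.trace_algebraMap (R := K) (S := L) (1 : K)
      rw [map_one] at this
      rw [this, nsmul_eq_mul, mul_one]
    show IsUnit (T 1)
    rw [h1]
    have h2 : (Module.finrank K L : ℚ) ≠ 0 := by
      have := Module.finrank_pos (R := K) (M := L)
      positivity
    have h3 : IsUnit (algebraMap ℚ A (Module.finrank K L : ℚ)) :=
      (isUnit_iff_ne_zero.2 h2).map (algebraMap ℚ A)
    rwa [map_natCast] at h3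
  · intro p hp b hb
    show T b ∈ p
    let Ω := AlgebraicClosure K
    let C := integralClosure A Ω
    have hker : RingHom.ker (algebraMap A C) ≤ p := by
      intro x hx
      have h1 : algebraMap A C x = 0 := hx
      have h2 : algebraMap A Ω x = 0 := by
        have := congrArg (algebraMap C Ω) h1
        rwa [map_zero, ← IsScalarTower.algebraMap_apply A C Ω] at this
      rw [IsScalarTower.algebraMap_apply A K Ω] at h2
      have h3 : algebraMap A K x = 0 := (map_eq_zero _).1 h2
      have h4 : x = 0 := hKinj (by rw [h3, map_zero])
      rw [h4]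
      exact p.zero_mem
    obtain ⟨Q, hQ, hQp⟩ := Ideal.exists_ideal_over_prime_of_isIntegral_of_isDomain (S := C) p hker
    have hemb : ∀ σ : L →ₐ[K] Ω, ∃ c : C, c ∈ Q ∧ (c : Ω) = σ (algebraMap B L b) := by
      intro σ
      let τ : B →ₐ[A] Ω := (σ.restrictScalars A).comp (IsScalarTower.toAlgHom A B L)
      have hτ : ∀ x, τ x ∈ C := fun x =>
        (Algebra.IsIntegral.isIntegral (R := A) x).map τ
      let τ' : B →ₐ[A] C := τ.codRestrict C hτ
      refine ⟨τ' b, ?_, rfl⟩
      obtain ⟨N, hN⟩ := hb
      have h1 : p.map (algebraMap A B) ≤ Q.comap (τ' : B →+* C) := by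
        rw [Ideal.map_le_iff_le_comap, Ideal.comap_comap]
        intro x hx
        rw [← hQp] at hx
        have h2 : algebraMap A C x ∈ Q := hx
        show (τ' : B →+* C) (algebraMap A B x) ∈ Q
        have h3 : (τ' : B →+* C) (algebraMap A B x) = algebraMap A C x := τ'.commutes x
        rw [h3]
        exact h2
      have h4 : τ' (b ^ N) ∈ Q := h1 hN
      rw [map_pow] at h4
      exact hQ.mem_of_pow_mem N h4
    choose c hcQ hc using hemb
    have htr : algebraMap A C (T b) = ∑ σ : L →ₐ[K] Ω, c σ := by
      apply Subtype.ext
      have h1 := trace_eq_sum_embeddings (K := K) (L := L) Ω (x := algebraMap B L b)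
      rw [← hT] at h1
      have h2 : ((algebraMap A C (T b) : C) : Ω) = algebraMap K Ω (algebraMap A K (T b)) := by
        rw [← IsScalarTower.algebraMap_apply A K Ω]
        rfl
      rw [h2, h1]
      rw [AddSubmonoidClass.coe_finsetSum]
      exact Finset.sum_congr rfl fun σ _ => (hc σ).symm
    have h5 : algebraMap A C (T b) ∈ Q := by
      rw [htr]
      exact Q.sum_mem fun σ _ => hcQ σ
    rw [← hQp]
    exact h5

end Pool.Agent.Y43.DR.TR
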